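import Pool.Agent.Y578.WT.Unary

/-!
# Total weighted tardiness with numbers in unary: definitions and reduction
-/

namespace Pool.Agent.Y578.WT

open Pool.Agent.H741R2.LJ Pool.Agent.NPC Pool.Agent.H257R2.WT

/-- An instance with all numbers in unary: a job is given by three lists, whose lengths are its
processing time, its due date and its weight; the bound is the length of the last list. -/
abbrev UInst := List (List Unit × List Unit × List Unit) × List Unit

/-- The instance in numbers. -/
def numbers (I : UInst) : List (ℕ × ℕ × ℕ) × ℤ :=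
  (I.1.map (fun j => (j.1.length, j.2.1.length, j.2.2.length)), (I.2.length : ℤ))

/-- The decision version of `1 || ∑ w_j T_j`, all numbers being written in unary. -/
def TardyUnary (I : UInst) : Prop := Tardy (numbers I)

/-- All processing times are among `1, 2, 5, 7, 10, 13`. -/
def SixLengths (I : UInst) : Prop :=
  ∀ j ∈ I.1, j.1.length = 1 ∨ j.1.length = 2 ∨ j.1.length = 5 ∨ j.1.length = 7 ∨
    j.1.length = 10 ∨ j.1.length = 13

/-- The problem `P` is `NP`-hard even when it is restricted to the instances with the property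
`D`: every language in `NP` reduces to it by a polynomial-time many-one reduction all of whose
values are (encodings of) instances with the property `D`. -/
def NPHardOn {α : Type} [TEnc α] (D P : α → Prop) : Prop :=
  ∀ L : Set (List Bool), InNP L → ∃ f : List Bool → List Bool, PolyTime f ∧
    ∀ x, ∃ a : α, f x = bits a ∧ D a ∧ (x ∈ L ↔ P a)

theorem toNPHardOn {α : Type} [TEnc α] {D P : α → Prop} (hP : HardPr D P) : NPHardOn D P := by
  intro L hL
  obtain ⟨f, hf, hfD, hfL⟩ := hP L hL
  exact ⟨fun x => bits (f x), PC.toPolyTime hf, fun x => ⟨f x, rfl, hfD x, hfL x⟩⟩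

theorem nPHardP_of_agree {α : Type} [TEnc α] {D P X : α → Prop} (hP : NPHardOn D P)
    (h : ∀ a, D a → (X a ↔ P a)) : NPHardP X := by
  intro L hL
  obtain ⟨f, hf, hfx⟩ := hP L hL
  refine ⟨f, hf, fun x => ?_⟩
  obtain ⟨a, ha, hD, hL⟩ := hfx x
  rw [hL, ← h a hD]
  constructor
  · intro hX
    exact ⟨a, ha.symm, hX⟩
  · rintro ⟨a', ha', hX⟩
    have : a' = a := bits_injective (ha'.trans ha)
    rwa [this] at hX

/-- The reduction. -/
noncomputable def instU (φ : Fm) : UInst :=
  if BB (mm φ) φ.length (cg φ) ≤ AA (mm φ) φ.length (cg φ) then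
    ((keysW (mm φ) φ.length (cg φ)).map (fun x => (List.replicate (len (mm φ) x) (),
      List.replicate (due' (mm φ) φ.length x) (),
      List.replicate (wt (mm φ) φ.length (cg φ) x) ())),
      List.replicate (AA (mm φ) φ.length (cg φ) - BB (mm φ) φ.length (cg φ)) ())
  else ([([()], [], [()])], [])

theorem instU_poly : Poly instU := by
  have h3 : Poly (fun x : Fm × Ky => x.2) := Poly.snd Poly.id
  have h1 : Poly (fun x : Fm × Ky => x.1) := Poly.fst Poly.id
  have hb : UPoly (fun φ : Fm => Hz (mm φ) φ.length + 13) := UPoly.add Hu (UPoly.const 13)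
  have e1 : UPoly (fun p : Fm × Ky => min (len (mm p.1) p.2) 13) :=
    UPoly.of_le (n := fun _ : Fm × Ky => 13)
      (Poly.min (lenf_poly (m_p h1) h3) (NPC.Poly.const 13)) (UPoly.const 13)
      (fun p => Nat.min_le_right _ _)
  have e2 : UPoly (fun p : Fm × Ky => min (due' (mm p.1) p.1.length p.2)
      (Hz (mm p.1) p.1.length + 13)) :=
    UPoly.of_le (n := fun p : Fm × Ky => Hz (mm p.1) p.1.length + 13)
      (Poly.min (due_p h1 h3) (hb.toPoly.comp h1)) (hb.comp h1) (fun p => Nat.min_le_right _ _)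
  have e3 : UPoly (fun p : Fm × Ky => min (wt (mm p.1) p.1.length (cg p.1) p.2) (wB p.1)) :=
    UPoly.of_le (n := fun p : Fm × Ky => wB p.1)
      (Poly.min (wt_p h1 h3) (wBu.toPoly.comp h1)) (wBu.comp h1) (fun p => Nat.min_le_right _ _)
  have e4 : UPoly (fun φ : Fm => AA (mm φ) φ.length (cg φ) - BB (mm φ) φ.length (cg φ)) :=
    UPoly.of_le (Poly.sub (AA_p Poly.id) (BB_p Poly.id)) AAu (fun φ => Nat.sub_le _ _)
  unfold instU
  refine Poly.ite (p := fun φ : Fm => BB (mm φ) φ.length (cg φ) ≤ AA (mm φ) φ.length (cg φ))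
    (Poly.decide_le (BB_p Poly.id) (AA_p Poly.id)) (Poly.pair ?_ e4) (NPC.Poly.const _)
  refine (NPC.Poly.map (F := fun (φ : Fm) (x : Ky) => (List.replicate (min (len (mm φ) x) 13) (),
      List.replicate (min (due' (mm φ) φ.length x) (Hz (mm φ) φ.length + 13)) (),
      List.replicate (min (wt (mm φ) φ.length (cg φ) x) (wB φ)) ())) (keysW_p Poly.id)
      (Poly.pair e1 (Poly.pair e2 e3))).congr fun φ => ?_
  refine List.map_congr_left fun x hx => ?_
  rw [Nat.min_eq_left (len_le _ _), Nat.min_eq_left (due_le φ x hx), Nat.min_eq_left (wt_le φ x)]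

theorem instU_lengths (φ : Fm) : SixLengths (instU φ) := by
  unfold instU SixLengths
  split_ifs with h
  · intro j hj
    simp only [List.mem_map] at hj
    obtain ⟨x, _, rfl⟩ := hj
    simp only [List.length_replicate]
    unfold len
    split_ifs <;> simp
  · intro j hj
    simp only [List.mem_singleton] at hj
    subst hj
    simp

theorem tardiness_nonneg {n : ℕ} (p d w : Fin n → ℕ) (S : Fin n → ℝ) :
    0 ≤ tardiness p d w S :=
  Finset.sum_nonneg fun _ _ => mul_nonneg (Nat.cast_nonneg _) (le_max_left _ _)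

theorem numbers_instU (φ : Fm) (h : BB (mm φ) φ.length (cg φ) ≤ AA (mm φ) φ.length (cg φ)) :
    numbers (instU φ) = H257R2.WT.inst φ := by
  unfold instU H257R2.WT.inst numbers
  rw [if_pos h]
  simp only [List.map_map, List.length_replicate, Nat.cast_sub h]
  congr 1
  refine List.map_congr_left fun x _ => ?_
  simp

theorem not_tardy : ¬ Tardy ([(1, 0, 1)], 0) := by
  rintro ⟨_, S, hS, hS'⟩
  have h0 : 0 ≤ S ⟨0, by simp⟩ := hS.nonneg ⟨0, by simp⟩
  unfold tardiness at hS'
  have h1 := Finset.single_le_sum (f := fun j : Fin [((1 : ℕ), (0 : ℕ), (1 : ℕ))].length =>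
    (([((1 : ℕ), (0 : ℕ), (1 : ℕ))][j].2.2 : ℕ) : ℝ) * max 0 (S j +
      (([((1 : ℕ), (0 : ℕ), (1 : ℕ))][j].1 : ℕ) : ℝ) -
      (([((1 : ℕ), (0 : ℕ), (1 : ℕ))][j].2.1 : ℕ) : ℝ)))
    (fun j _ => mul_nonneg (Nat.cast_nonneg _) (le_max_left _ _))
    (Finset.mem_univ ⟨0, by simp⟩)
  have h2 := h1.trans hS'
  simp at h0 h2
  linarith

theorem instU_correct (φ : Fm) : SAT3 φ ↔ TardyUnary (instU φ) := by
  by_cases h : BB (mm φ) φ.length (cg φ) ≤ AA (mm φ) φ.length (cg φ)
  · unfold TardyUnary
    rw [numbers_instU φ h]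
    exact inst_correct φ
  · constructor
    · intro hs
      exfalso
      obtain ⟨_, S, _, hS⟩ := (inst_correct φ).1 hs
      have h1 := (tardiness_nonneg _ _ _ S).trans hS
      have h2 : (0 : ℤ) ≤ (H257R2.WT.inst φ).2 := by exact_mod_cast h1
      unfold H257R2.WT.inst at h2
      simp only at h2
      omega
    · intro ht
      exfalso
      unfold TardyUnary instU at ht
      rw [if_neg h] at ht
      exact not_tardy ht

theorem hardPr_unary : HardPr SixLengths TardyUnary :=
  (hardI_SAT3.toHardPr).trans instU_poly (fun φ _ => instU_lengths φ) fun φ _ => instU_correct φ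

theorem pmax_le {I : List (ℕ × ℕ × ℕ) × ℤ} {c : ℕ} (h : ∀ j ∈ I.1, j.1 ≤ c) : pmax I ≤ c := by
  unfold pmax
  obtain ⟨l, k⟩ := I
  simp only at h ⊢
  induction l with
  | nil => simp
  | cons x l ih =>
    simp only [List.foldr_cons]
    exact max_le (h x (by simp)) (ih fun j hj => h j (by simp [hj]))

/-- The maximum processing time. -/
def pmaxU (I : UInst) : ℕ := pmax (numbers I)

theorem pmaxU_le {I : UInst} (h : SixLengths I) : pmaxU I ≤ 13 := by
  unfold pmaxU
  refine pmax_le fun j hj => ?_
  unfold numbers at hj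
  simp only [List.mem_map] at hj
  obtain ⟨x, hx, rfl⟩ := hj
  have := h x hx
  simp only
  omega

open Pool.Agent.H633R2 in
/-- A pseudo-polynomial fixed-parameter algorithm for the parameter `pmax` collapses `NP` to `P`. -/
theorem fpt_collapseU (h : IsFpt pmaxU TardyUnary) : ∀ L : Set (List Bool), InNP L → InP L := by
  obtain ⟨d, hd, hd'⟩ := h
  have h1 : FptTime (fun _ : List Cl => 0) (fun φ => d (instU φ)) :=
    FptTime.comp (κ := fun _ : List Cl => 0) hd (FptTime.of_poly instU_poly)
      (Computable.const 13) (fun φ => pmaxU_le (instU_lengths φ))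
  rw [fptTime_iff] at h1
  obtain ⟨c, h, p, _, hc⟩ := h1
  have h2 : Poly (fun φ : List Cl => d (instU φ)) := by
    refine ⟨c, Polynomial.C (h 0) * p, fun a => ?_⟩
    rw [Polynomial.eval_mul, Polynomial.eval_C]
    exact hc a
  exact HardI.collapse hardI_SAT3 h2 fun φ => (instU_correct φ).trans (hd' _).symm

end Pool.Agent.Y578.WT
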