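import Pool.Agent.H257R2.WT.Red

/-!
# Total weighted tardiness: the numbers of the reduction are small
-/

namespace Pool.Agent.Y578.WT

open Pool.Agent.H741R2.LJ Pool.Agent.NPC Pool.Agent.H257R2.WT

theorem lsum_le (n : ℕ) (f : ℕ → ℕ) (B : ℕ) (h : ∀ i < n, f i ≤ B) : lsum n f ≤ n * B := by
  rw [lsum_eq]
  calc _ ≤ ∑ i ∈ Finset.range n, B :=
        Finset.sum_le_sum fun i hi => h i (Finset.mem_range.1 hi)
    _ = n * B := by simp

theorem cnt_le (G : ℕ) (σ : ℕ → ℕ) (j : ℕ) : cnt G σ j ≤ G := by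
  unfold cnt
  refine (List.length_filter_le _ _).trans ?_
  rw [List.length_range]

theorem len_le (m : ℕ) (x : Ky) : len m x ≤ 13 := by
  unfold len
  split_ifs <;> omega

theorem Ps_le {m s g : ℕ} (hm : 0 < m) (hg : g < 2 * m * s) : Ps m s g ≤ Hz m s := by
  have := Ps_Hz (s := s) hm hg
  omega

theorem OC_le (m s : ℕ) : OC m s ≤ s * (Lm m s * s + 40 * m) := by
  unfold OC
  refine lsum_le _ _ _ fun i hi => ?_
  have := Nat.mul_le_mul_left (Lm m s) hi.le
  omega

theorem OB_le {m s : ℕ} (hm : 0 < m) : OB m s ≤ 2 * m * s * (2 * m * s * (Hz m s + 18)) := by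
  unfold OB
  refine lsum_le _ _ _ fun i hi => Nat.mul_le_mul (cnt_le _ _ _) ?_
  have := Ps_le hm hi
  split_ifs <;> omega

theorem OA_le {m s : ℕ} (hm : 0 < m) : OA m s ≤ 2 * m * s * (2 * m * s * (Hz m s + 13)) := by
  unfold OA
  refine lsum_le _ _ _ fun i hi => Nat.mul_le_mul (cnt_le _ _ _) ?_
  have := Ps_le hm hi
  have := len_le m (0, i)
  omega

theorem F0_le (m s : ℕ) (cg : ℕ → Bool) : F0 m s cg ≤ Hz m s * Hz m s := by
  unfold F0
  refine lsum_le _ _ _ fun i hi => ?_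
  split_ifs <;> omega

theorem tri_le {p : ℕ} (hp : p ≤ 13) : tri p ≤ 91 := by
  unfold tri
  have : p * (p + 1) ≤ 13 * 14 := Nat.mul_le_mul hp (by omega)
  omega

theorem QQ_le (m s : ℕ) (cg : ℕ → Bool) :
    QQ m s cg ≤ 2 * m * s * 91 + 2 * m * s * 91 + s * 3 + Hz m s := by
  unfold QQ
  have h1 := lsum_le (2 * m * s) (fun g => tri (len m (0, g))) 91 fun i _ => tri_le (len_le _ _)
  have h2 := lsum_le (2 * m * s) (fun g => tri (len m (1, g))) 91 fun i _ => tri_le (len_le _ _)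
  have h3 := lsum_le s (fun _ => 3) 3 fun i _ => le_rfl
  have h4 := nf_le m s cg
  omega

theorem mm_pos (φ : List Cl) : 0 < mm φ := by
  unfold mm
  omega

/-! ## Polynomial bounds -/

abbrev Fm := List Cl

theorem mu : UPoly (fun φ : Fm => mm φ) := m_u Poly.id

theorem su : UPoly (fun φ : Fm => φ.length) := s_u Poly.id

theorem Gu : UPoly (fun φ : Fm => 2 * mm φ * φ.length) := G_u Poly.id

theorem Lu : UPoly (fun φ : Fm => Lm (mm φ) φ.length) := Lm_u Poly.id

theorem Hu : UPoly (fun φ : Fm => Hz (mm φ) φ.length) := Hz_u Poly.id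

theorem OCu : UPoly (fun φ : Fm => OC (mm φ) φ.length) :=
  UPoly.of_le (OC_p Poly.id) (UPoly.mul su (UPoly.add (UPoly.mul Lu su)
    (UPoly.mul (UPoly.const 40) mu))) fun φ => OC_le _ _

theorem OBu : UPoly (fun φ : Fm => OB (mm φ) φ.length) :=
  UPoly.of_le (OB_p Poly.id) (UPoly.mul Gu (UPoly.mul Gu (UPoly.add Hu (UPoly.const 18))))
    fun φ => OB_le (mm_pos φ)

theorem OAu : UPoly (fun φ : Fm => OA (mm φ) φ.length) :=
  UPoly.of_le (OA_p Poly.id) (UPoly.mul Gu (UPoly.mul Gu (UPoly.add Hu (UPoly.const 13))))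
    fun φ => OA_le (mm_pos φ)

theorem W2u : UPoly (fun φ : Fm => W2 (mm φ) φ.length) := UPoly.add OCu (UPoly.const 1)

theorem W1u : UPoly (fun φ : Fm => W1 (mm φ) φ.length) :=
  UPoly.add (UPoly.add (UPoly.mul W2u OBu) OCu) (UPoly.const 1)

theorem Omu : UPoly (fun φ : Fm => Om (mm φ) φ.length) :=
  UPoly.add (UPoly.add (UPoly.mul W1u OAu) (UPoly.mul W2u OBu)) OCu

theorem WWu : UPoly (fun φ : Fm => WW (mm φ) φ.length) := UPoly.add Omu (UPoly.const 1)

theorem F0u : UPoly (fun φ : Fm => F0 (mm φ) φ.length (cg φ)) :=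
  UPoly.of_le (F0_p Poly.id) (UPoly.mul Hu Hu) fun φ => F0_le _ _ _

theorem QQu : UPoly (fun φ : Fm => QQ (mm φ) φ.length (cg φ)) :=
  UPoly.of_le (QQ_p Poly.id) (UPoly.add (UPoly.add (UPoly.add (UPoly.mul Gu (UPoly.const 91))
    (UPoly.mul Gu (UPoly.const 91))) (UPoly.mul su (UPoly.const 3))) Hu) fun φ => QQ_le _ _ _

theorem AAu : UPoly (fun φ : Fm => AA (mm φ) φ.length (cg φ)) :=
  UPoly.add (UPoly.mul WWu (UPoly.add F0u QQu)) Omu

/-- A bound for the weights. -/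
noncomputable def wB (φ : Fm) : ℕ :=
  (AA (mm φ) φ.length (cg φ) + 1) + (13 * WW (mm φ) φ.length +
    (W1 (mm φ) φ.length * (2 * mm φ * φ.length) + W2 (mm φ) φ.length * (2 * mm φ * φ.length) + 1))

theorem wBu : UPoly wB :=
  UPoly.add (UPoly.add AAu (UPoly.const 1)) (UPoly.add (UPoly.mul (UPoly.const 13) WWu)
    (UPoly.add (UPoly.add (UPoly.mul W1u Gu) (UPoly.mul W2u Gu)) (UPoly.const 1)))

theorem wt_le (φ : Fm) (x : Ky) : wt (mm φ) φ.length (cg φ) x ≤ wB φ := by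
  unfold wt wB
  split_ifs with h
  · omega
  · have h1 : len (mm φ) x * WW (mm φ) φ.length ≤ 13 * WW (mm φ) φ.length :=
      Nat.mul_le_mul_right _ (len_le _ _)
    have h2 : om (mm φ) φ.length x ≤ W1 (mm φ) φ.length * (2 * mm φ * φ.length) +
        W2 (mm φ) φ.length * (2 * mm φ * φ.length) + 1 := by
      unfold om
      split_ifs
      · have := Nat.mul_le_mul_left (W1 (mm φ) φ.length)
          (cnt_le (2 * mm φ * φ.length) (s1 (mm φ)) x.2)
        omega
      · have := Nat.mul_le_mul_left (W2 (mm φ) φ.length)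
          (cnt_le (2 * mm φ * φ.length) (s2 (mm φ) φ.length) x.2)
        omega
      · omega
      · omega
    omega

theorem due_le (φ : Fm) (x : Ky) (hx : x ∈ keysW (mm φ) φ.length (cg φ)) :
    due' (mm φ) φ.length x ≤ Hz (mm φ) φ.length + 13 := by
  unfold keysW at hx
  rw [List.mem_append, mem_keysX, mem_keysZ] at hx
  have hl := len_le (mm φ) x
  have hP : ∀ y, x.2 < 2 * mm φ * φ.length →
      Ps (mm φ) φ.length (min x.2 y) ≤ Hz (mm φ) φ.length := fun y hy =>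
    Ps_le (mm_pos φ) (lt_of_le_of_lt (Nat.min_le_left _ _) hy)
  unfold due'
  rcases hx with (⟨h1, h2⟩ | ⟨h1, h2⟩ | ⟨h1, h2⟩ | ⟨h1, h2⟩) | ⟨h1, h2, _⟩
  · have := hP (s1 (mm φ) x.2) h2
    simp only [h1, if_true]
    omega
  · have := hP (s2 (mm φ) φ.length x.2) h2
    simp only [h1, if_true, one_ne_zero, if_false]
    omega
  · have h3 : Lm (mm φ) φ.length * x.2 ≤ Hz (mm φ) φ.length := by
      unfold Hz
      exact Nat.mul_le_mul_left _ h2.le
    simp only [h1]
    norm_num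
    omega
  · simp only [h1]
    norm_num
  · simp only [h1]
    norm_num
    omega

end Pool.Agent.Y578.WT
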